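import Mathlib
import Pool.Agent.H759R2.Kad.Props3

open scoped ComplexOrder InnerProductSpace ComplexConjugate
open Finset

noncomputable section

namespace H759R2.Kad

universe u v

namespace A07

variable {B : Type u} [CStarAlgebra B] {ι : Type} [Fintype ι] [DecidableEq ι] {R : ℕ} [NeZero R]

theorem D_apply (g : ι → unitary B) (ω : ι → ZMod R) (i j : ι) :
    (gm g * ph B ω) i j = if i = j then chi ω i • (g i : B) else 0 := by
  rw [CStarMatrix.mul_apply]
  rw [Finset.sum_eq_single i]
  · unfold gm ph
    rw [CStarMatrix.ofMatrix_apply, CStarMatrix.ofMatrix_apply, Matrix.diagonal_apply_eq]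
    by_cases hij : i = j
    · subst hij
      rw [Matrix.diagonal_apply_eq, if_pos rfl, mul_smul_comm, mul_one]
    · rw [Matrix.diagonal_apply_ne _ hij, if_neg hij, mul_zero]
  · intro b _ hb
    unfold gm
    rw [CStarMatrix.ofMatrix_apply, Matrix.diagonal_apply_ne _ hb.symm, zero_mul]
  · intro h; exact absurd (mem_univ i) h

theorem M_apply (x : CStarMatrix ι ι B) (g : ι → unitary B) (ω : ι → ZMod R) (i j : ι) :
    (gm g * ph B ω * x) i j = chi ω i • ((g i : B) * x i j) := by
  rw [CStarMatrix.mul_apply, Finset.sum_eq_single i]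
  · rw [D_apply, if_pos rfl, smul_mul_assoc]
  · intro b _ hb
    rw [D_apply, if_neg hb.symm, zero_mul]
  · intro h; exact absurd (mem_univ i) h

theorem Tw_succ (x : CStarMatrix ι ι B) (g : ι → unitary B) (ω : ι → ZMod R) (k : ℕ) :
    Tw x g ω (k + 1) = (gm g * ph B ω * x) * Tw x g ω k := by
  unfold Tw
  rw [pow_succ', mul_assoc]

theorem sword_cons (x : CStarMatrix ι ι B) (g : ι → unitary B) {k : ℕ} (a : ι)
    (σ : Fin (k + 1) → ι) :
    sword x g (Fin.cons a σ : Fin (k + 1 + 1) → ι) = (g a : B) * x a (σ 0) * sword x g σ := by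
  unfold sword
  simp only [Fin.cons_zero, Fin.cons_succ]
  rw [List.ofFn_succ]
  simp only [rword]
  noncomm_ring

end A07

theorem prove3_expand : K_expand.{u} := by
  intro B _ ι _ _ R _ x g ω k
  induction k with
  | zero =>
    intro i j
    have h0 : Tw x g ω 0 = gm g * ph B ω := by unfold Tw; rw [pow_zero, one_mul]
    rw [h0, A07.D_apply]
    have hs : ∀ σ : Fin (0 + 1) → ι, sword x g σ = (g (σ 0) : B) := by
      intro σ
      unfold sword
      simp [rword]
    have hlast : (Fin.last 0 : Fin (0 + 1)) = 0 := rfl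
    have key : ∀ F : (Fin (0 + 1) → ι) → B, ∑ σ, F σ = ∑ a, F (fun _ => a) := by
      intro F
      refine Fintype.sum_bijective (fun σ : Fin (0 + 1) → ι => σ 0) ?_ _ _ ?_
      · constructor
        · intro σ τ h
          funext t
          have ht : t = 0 := Fin.ext (by omega)
          rw [ht]; exact h
        · intro a; exact ⟨fun _ => a, rfl⟩
      · intro σ
        congr 1
        funext t
        have ht : t = 0 := Fin.ext (by omega)
        rw [ht]
    rw [key]
    simp only [hlast]
    by_cases hij : i = j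
    · subst hij
      rw [if_pos rfl, Finset.sum_eq_single i]
      · simp [hs]
      · intro b _ hb
        rw [if_neg (fun h => hb h.1)]
      · intro h; exact absurd (mem_univ i) h
    · rw [if_neg hij, Finset.sum_eq_zero]
      intro b _
      rw [if_neg]
      rintro ⟨h1, h2⟩
      exact hij (h1.symm.trans h2)
  | succ k ih =>
    intro i j
    rw [A07.Tw_succ, CStarMatrix.mul_apply]
    have hR : (∑ σ : Fin (k + 1 + 1) → ι,
        if σ 0 = i ∧ σ (Fin.last (k + 1)) = j then (∏ t, chi ω (σ t)) • sword x g σ else 0) =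
        ∑ a : ι, ∑ σ : Fin (k + 1) → ι, if a = i ∧ σ (Fin.last k) = j then
          (chi ω a * ∏ t, chi ω (σ t)) • ((g a : B) * x a (σ 0) * sword x g σ) else 0 := by
      rw [← (Fin.consEquiv (fun _ => ι)).sum_comp, Fintype.sum_prod_type]
      apply Finset.sum_congr rfl
      intro a _
      apply Finset.sum_congr rfl
      intro σ _
      have e1 : (Fin.consEquiv (fun _ : Fin (k + 1 + 1) => ι)) (a, σ) = Fin.cons a σ := rfl
      have e2 : (Fin.cons a σ : Fin (k + 1 + 1) → ι) (Fin.last (k + 1)) = σ (Fin.last k) := by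
        rw [← Fin.succ_last, Fin.cons_succ]
      rw [e1, A07.sword_cons, Fin.prod_univ_succ, e2]
      simp only [Fin.cons_zero, Fin.cons_succ]
    rw [hR]
    have hL : ∀ c : ι, (gm g * ph B ω * x) i c * Tw x g ω k c j = ∑ σ : Fin (k + 1) → ι,
        if σ 0 = c then (if σ (Fin.last k) = j then
          (chi ω i * ∏ t, chi ω (σ t)) • ((g i : B) * x i (σ 0) * sword x g σ) else 0) else 0 := by
      intro c
      rw [A07.M_apply, ih, Finset.mul_sum]
      apply Finset.sum_congr rfl
      intro σ _
      by_cases h1 : σ 0 = c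
      · by_cases h2 : σ (Fin.last k) = j
        · rw [if_pos ⟨h1, h2⟩, if_pos h1, if_pos h2, h1, smul_mul_smul_comm]
        · rw [if_neg (fun h => h2 h.2), if_pos h1, if_neg h2, mul_zero]
      · rw [if_neg (fun h => h1 h.1), if_neg h1, mul_zero]
    rw [Finset.sum_congr rfl (fun c _ => hL c), Finset.sum_comm]
    have hL2 : ∀ σ : Fin (k + 1) → ι, (∑ c : ι, if σ 0 = c then (if σ (Fin.last k) = j then
          (chi ω i * ∏ t, chi ω (σ t)) • ((g i : B) * x i (σ 0) * sword x g σ) else 0) else 0) =
          if σ (Fin.last k) = j then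
          (chi ω i * ∏ t, chi ω (σ t)) • ((g i : B) * x i (σ 0) * sword x g σ) else 0 := by
      intro σ
      rw [Finset.sum_ite_eq]
      simp
    rw [Finset.sum_congr rfl (fun σ _ => hL2 σ)]
    symm
    rw [Finset.sum_eq_single i]
    · apply Finset.sum_congr rfl
      intro σ _
      simp
    · intro a _ ha
      apply Finset.sum_eq_zero
      intro σ _
      rw [if_neg (fun h => ha h.1)]
    · intro h; exact absurd (mem_univ i) h

end H759R2.Kad
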